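import Pool.Agent.H385R2.WinE

/-!
# The numerical value of the degree 3 constant (Montgomery-Taylor kernel, support 1)
-/

open Complex Filter Topology Set MeasureTheory

namespace Pool.Agent.Y772.NC

open H385 H385.WinC

theorem trig_4715 : |Real.cos (943 / 2000) - 0.89088795601| ≤ 1 / 10 ^ 9 ∧
    |Real.sin (943 / 2000) - 0.45422312781| ≤ 1 / 10 ^ 9 := by
  have hx : ‖((943 / 2000 : ℝ) : ℂ) * I‖ = 943 / 2000 := by
    rw [norm_mul, Complex.norm_real, Complex.norm_I, mul_one]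
    norm_num
  have h := Complex.exp_bound' (x := ((943 / 2000 : ℝ) : ℂ) * I) (n := 12) (by
    rw [hx]; norm_num)
  rw [hx] at h
  have hI2 : I ^ 2 = -1 := I_sq
  have hI3 : I ^ 3 = -I := by rw [pow_succ, hI2]; ring
  have hI4 : I ^ 4 = 1 := by rw [pow_succ, hI3]; ring_nf; rw [hI2]; ring
  have hI5 : I ^ 5 = I := by rw [pow_succ, hI4]; ring
  have hI6 : I ^ 6 = -1 := by rw [pow_succ, hI5, ← pow_two, hI2]
  have hI7 : I ^ 7 = -I := by rw [pow_succ, hI6]; ring
  have hI8 : I ^ 8 = 1 := by rw [pow_succ, hI7]; ring_nf; rw [hI2]; ring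
  have hI9 : I ^ 9 = I := by rw [pow_succ, hI8]; ring
  have hI10 : I ^ 10 = -1 := by rw [pow_succ, hI9, ← pow_two, hI2]
  have hI11 : I ^ 11 = -I := by rw [pow_succ, hI10]; ring
  set A : ℝ := 1 - (943 / 2000) ^ 2 / 2 + (943 / 2000) ^ 4 / 24 - (943 / 2000) ^ 6 / 720 +
    (943 / 2000) ^ 8 / 40320 - (943 / 2000) ^ 10 / 3628800 with hA
  set B : ℝ := (943 / 2000) - (943 / 2000) ^ 3 / 6 + (943 / 2000) ^ 5 / 120 - (943 / 2000) ^ 7 / 5040 +
    (943 / 2000) ^ 9 / 362880 - (943 / 2000) ^ 11 / 39916800 with hB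
  have hsum : ∑ m ∈ Finset.range 12, (((943 / 2000 : ℝ) : ℂ) * I) ^ m / (m.factorial : ℂ) =
      (A : ℂ) + (B : ℂ) * I := by
    simp only [Finset.sum_range_succ, Finset.sum_range_zero, mul_pow, hI2, hI3, hI4, hI5, hI6, hI7,
      hI8, hI9, hI10, hI11, Nat.factorial, hA, hB]
    push_cast
    ring
  rw [hsum, Complex.exp_ofReal_mul_I] at h
  have hre := (Complex.abs_re_le_norm _).trans h
  have him := (Complex.abs_im_le_norm _).trans h
  have e1 : ((((Real.cos (943 / 2000) : ℝ) : ℂ) + ((Real.sin (943 / 2000) : ℝ) : ℂ) * I -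
      ((A : ℂ) + (B : ℂ) * I))).re = Real.cos (943 / 2000) - A := by
    rw [Complex.sub_re, Complex.add_re, Complex.add_re, Complex.re_ofReal_mul,
      Complex.re_ofReal_mul, Complex.I_re, Complex.ofReal_re, Complex.ofReal_re]
    ring
  have e2 : ((((Real.cos (943 / 2000) : ℝ) : ℂ) + ((Real.sin (943 / 2000) : ℝ) : ℂ) * I -
      ((A : ℂ) + (B : ℂ) * I))).im = Real.sin (943 / 2000) - B := by
    rw [Complex.sub_im, Complex.add_im, Complex.add_im, Complex.im_ofReal_mul,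
      Complex.im_ofReal_mul, Complex.I_im, Complex.ofReal_im, Complex.ofReal_im]
    ring
  rw [e1] at hre
  rw [e2] at him
  have hb : (943 / 2000 : ℝ) ^ 12 / ((12 : ℕ).factorial : ℝ) * 2 ≤ 1 / 10 ^ 10 := by
    norm_num [Nat.factorial]
  have hA1 : |A - 0.89088795601| ≤ 5 / 10 ^ 10 := by
    rw [hA, abs_le]
    constructor <;> norm_num
  have hB1 : |B - 0.45422312781| ≤ 5 / 10 ^ 10 := by
    rw [hB, abs_le]
    constructor <;> norm_num
  rw [abs_le] at hre him hA1 hB1 ⊢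
  rw [abs_le]
  refine ⟨⟨?_, ?_⟩, ?_, ?_⟩ <;> linarith [hre.1, hre.2, him.1, him.2, hA1.1, hA1.2, hB1.1, hB1.2]



/-- the degree 3 constant: `1.7205405...` -/
theorem Rw_const_d3 : 3 / 2 * Rw 0.943 0 + 4 / 3 * ∫ α in (0 : ℝ)..1, α * Rw 0.943 α < 1.72055 := by
  have h := Rw_const_closed 0.943 (3 / 2) (4 / 3) (by norm_num)
  rw [h]
  have hh : (0.943 : ℝ) / 2 = 943 / 2000 := by norm_num
  have hS : Real.sin 0.943 = 2 * Real.sin (943 / 2000) * Real.cos (943 / 2000) := by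
    rw [← Real.sin_two_mul]; congr 1; norm_num
  have hC : Real.cos 0.943 = 1 - 2 * Real.sin (943 / 2000) ^ 2 := by
    have : Real.cos 0.943 = Real.cos (2 * (943 / 2000)) := by congr 1; norm_num
    rw [this, Real.cos_two_mul, Real.cos_sq']
    ring
  obtain ⟨hcos, hsin⟩ := trig_4715
  rw [hh, hS, hC]
  set s := Real.sin (943 / 2000) with hs
  set c := Real.cos (943 / 2000) with hcc
  rw [abs_le] at hcos hsin
  have hs1 : 0.454223126 ≤ s := by linarith [hsin.1]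
  have hspos : 0 < s := by linarith
  have hc1 : c ≤ 0.890887958 := by linarith [hcos.2]
  have hs2 : s ≤ 0.454223130 := by linarith [hsin.2]
  have hc0 : 0 ≤ c := by linarith [hcos.1]
  have hsc : s * c ≤ 0.454223130 * 0.890887958 := mul_le_mul hs2 hc1 hc0 (by norm_num)
  have hss : 0.454223126 ^ 2 ≤ s ^ 2 := pow_le_pow_left₀ (by norm_num) hs1 2
  have e : (0.943 / (2 * s)) ^ 2 / 2 *
        (3 / 2 * (1 + 2 * s * c / 0.943) + 4 / 3 * ((1 - (1 - 2 * s ^ 2) - 1) / 0.943 ^ 2 +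
          2 * s * c / 0.943 ^ 3)) =
      (3 / 2 * 0.943 ^ 2 + (3 * 0.943 + (8 / 3) / 0.943) * (s * c) + 8 / 3 * s ^ 2 - 4 / 3) /
        (8 * s ^ 2) := by
    field_simp
    ring
  rw [e, div_lt_iff₀ (by positivity)]
  have : (3 * 0.943 + (8 / 3) / 0.943) * (s * c) ≤
    (3 * 0.943 + (8 / 3) / 0.943) * (0.454223130 * 0.890887958 : ℝ) :=
    mul_le_mul_of_nonneg_left hsc (by norm_num)
  norm_num at this hss ⊢
  linarith

end Pool.Agent.Y772.NC
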